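import Mathlib
import Pool.Agent.helper81.DI.SpecA

/-! # Project di, module A13 (helper18): radical chains and the largest term. -/

set_option autoImplicit false

namespace Pool.Agent.DI

open Pool.Agent.helper58.DC

theorem A13_mem {Γ : Type} [Group Γ] {C : Finset (Subgroup Γ)} {x : Γ} :
    x ∈ nrm C ↔ ∀ Q ∈ C, x ∈ nz Q := by
  simp only [nrm, Subgroup.mem_iInf]

theorem A13 : A13_stmt := by
  classical
  intro Γ _ _ p _ C hC
  obtain ⟨P₀, hP₀, hmin, hop, hrad⟩ := hC.radical
  obtain ⟨P, hP, hmax⟩ := C.exists_maximal ⟨P₀, hP₀⟩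
  have hle : ∀ Q ∈ C, Q ≤ P := by
    intro Q hQ
    rcases eq_or_ne Q P with h | h
    · exact h.le
    · rcases hC.chain (Finset.mem_coe.mpr hQ) (Finset.mem_coe.mpr hP) h with h' | h'
      · exact h'
      · exact hmax hQ h'
  refine ⟨P, hP, hle, hC.isPGroup P hP, ?_, ?_, ?_⟩
  · rcases eq_or_ne P P₀ with h | h
    · intro x hx
      rw [A13_mem]
      intro Q hQ
      have : Q = P := le_antisymm (hle Q hQ) (h ▸ hmin Q hQ)
      rw [this]
      exact Subgroup.le_normalizer hx
    · have h1 := (hrad P hP h).1.1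
      have h2 : C.filter (· ≤ P) = C := Finset.filter_true_of_mem hle
      rwa [h2] at h1
  · intro x hx
    exact A13_mem.mp hx P hP
  · intro x hx
    rw [A13_mem]
    intro Q hQ
    have hx' : ∀ y ∈ Q, y * x = x * y := fun y hy =>
      Subgroup.mem_centralizer_iff.mp hx y (hle Q hQ hy)
    rw [Subgroup.mem_normalizer_iff]
    intro y
    constructor
    · intro hy
      have : x * y * x⁻¹ = y := by rw [← hx' y hy]; group
      rwa [this]
    · intro hy
      have h1 := hx' _ hy
      have h2 : x * y * x⁻¹ = y := by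
        have h3 : x * y = x * (x * y * x⁻¹) := by rw [← h1]; group
        have h4 := mul_left_cancel h3
        exact h4.symm
      rwa [h2] at hy

end Pool.Agent.DI
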