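import Mathlib
import Pool.Agent.helper81.DI.SpecB
import Pool.Agent.helper81.DI.SpecC

/-! # Project di, module C4 (helper18): multiplicativity of central characters. -/

set_option autoImplicit false

namespace Pool.Agent.DI

open Pool.Agent.helper58.DC

/-- a function supported on a subgroup -/
theorem C4_sum {Γ : Type} [Group Γ] [Finite Γ] (L : Subgroup Γ) (f : Γ → ℂ)
    (hf : ∀ x, x ∉ L → f x = 0) : ∑ᶠ x, f x = ∑ᶠ x : L, f x := by
  classical
  haveI := Fintype.ofFinite Γ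
  haveI := Fintype.ofFinite L
  rw [finsum_eq_sum_of_fintype, finsum_eq_sum_of_fintype]
  refine (Fintype.sum_of_injective (fun x : L => (x : Γ)) Subtype.val_injective _ _ ?_
    fun _ => rfl).symm
  intro x hx
  exact hf x fun h => hx ⟨⟨x, h⟩, rfl⟩

/-- the main computation -/
theorem C4_core {H : Type} [Group H] [Finite H] (χ : H → ℂ)
    (h4 : ∀ x y : H, χ 1 * ∑ᶠ t : H, χ (x * (t * y * t⁻¹)) = (Nat.card H : ℂ) * χ x * χ y)
    (hc : ∀ g h, χ (h * g * h⁻¹) = χ g) (z w : H → ℂ) (hz : ∀ l x, z (l * x * l⁻¹) = z x) :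
    χ 1 * ∑ᶠ g, cv z w g * χ g = (∑ᶠ x, z x * χ x) * ∑ᶠ y, w y * χ y := by
  classical
  haveI := Fintype.ofFinite H
  simp only [cv, finsum_eq_sum_of_fintype] at h4 ⊢
  -- the double sum
  have e1 : ∑ g, (∑ x, z x * w (x⁻¹ * g)) * χ g = ∑ x, ∑ y, z x * w y * χ (x * y) := by
    calc ∑ g, (∑ x, z x * w (x⁻¹ * g)) * χ g = ∑ g, ∑ x, z x * w (x⁻¹ * g) * χ g := by
          refine Finset.sum_congr rfl fun g _ => Finset.sum_mul _ _ _
      _ = ∑ x, ∑ g, z x * w (x⁻¹ * g) * χ g := Finset.sum_comm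
      _ = ∑ x, ∑ y, z x * w y * χ (x * y) := by
          refine Finset.sum_congr rfl fun x _ => ?_
          refine (Fintype.sum_equiv (Equiv.mulLeft x) _ _ fun y => ?_).symm
          simp
  have hcm : ∀ a b, χ (a * b) = χ (b * a) := by
    intro a b
    rw [← hc (a * b) b]
    group
  -- averaging
  have e2 : ∀ l y : H, ∑ x, z x * w y * χ (x * y) = ∑ x, z x * w y * χ (y * (l * x * l⁻¹)) := by
    intro l y
    refine (Fintype.sum_equiv (MulAut.conj l).toEquiv _ _ fun x => ?_).symm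
    simp only [MulEquiv.toEquiv_eq_coe, EquivLike.coe_coe, MulAut.conj_apply]
    rw [hz, hcm y]
  have e3 : (Nat.card H : ℂ) * ∑ x, ∑ y, z x * w y * χ (x * y) =
      ∑ y, ∑ x, z x * w y * ∑ l, χ (y * (l * x * l⁻¹)) := by
    rw [Finset.sum_comm, Finset.mul_sum]
    refine Finset.sum_congr rfl fun y _ => ?_
    have : (Nat.card H : ℂ) * ∑ x, z x * w y * χ (x * y) =
        ∑ l : H, ∑ x, z x * w y * χ (y * (l * x * l⁻¹)) := by
      rw [← Finset.sum_congr rfl fun l _ => e2 l y]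
      simp
    rw [this, Finset.sum_comm]
    refine Finset.sum_congr rfl fun x _ => ?_
    rw [Finset.mul_sum]
  have hN : (Nat.card H : ℂ) ≠ 0 := by
    exact_mod_cast Nat.card_pos.ne'
  rw [e1]
  refine mul_left_cancel₀ hN ?_
  calc (Nat.card H : ℂ) * (χ 1 * ∑ x, ∑ y, z x * w y * χ (x * y))
      = χ 1 * ((Nat.card H : ℂ) * ∑ x, ∑ y, z x * w y * χ (x * y)) := by ring
    _ = ∑ y, ∑ x, z x * w y * (χ 1 * ∑ l, χ (y * (l * x * l⁻¹))) := by
        rw [e3, Finset.mul_sum]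
        refine Finset.sum_congr rfl fun y _ => ?_
        rw [Finset.mul_sum]
        refine Finset.sum_congr rfl fun x _ => ?_
        ring
    _ = ∑ y, ∑ x, z x * w y * ((Nat.card H : ℂ) * χ y * χ x) := by
        refine Finset.sum_congr rfl fun y _ => Finset.sum_congr rfl fun x _ => ?_
        rw [h4 y x]
    _ = (Nat.card H : ℂ) * ((∑ x, z x * χ x) * ∑ y, w y * χ y) := by
        rw [mul_comm (∑ x, z x * χ x), Finset.sum_mul_sum, Finset.mul_sum]
        refine Finset.sum_congr rfl fun y _ => ?_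
        rw [Finset.mul_sum]
        refine Finset.sum_congr rfl fun x _ => ?_
        ring

theorem C4_cc {H : Type} [Group H] (χ z w : H → ℂ) (c : H → ℂ)
    (h : χ 1 * ∑ᶠ g, c g * χ g = (∑ᶠ x, z x * χ x) * ∑ᶠ y, w y * χ y) :
    cc χ c = cc χ z * cc χ w := by
  rcases eq_or_ne (χ 1) 0 with h0 | h0
  · simp [cc, h0]
  · unfold cc
    rw [div_mul_div_comm, ← h]
    field_simp

theorem C4 (hB1 : B1_stmt) (hB4 : B4_stmt) : C4_stmt := by
  intro Γ _ _
  refine ⟨?_, ?_, ?_⟩
  · intro L ψ hψ z w hz hzs hws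
    obtain ⟨hs, hI⟩ := hψ
    apply C4_cc
    have key := C4_core (fun h : L => ψ (h : Γ)) (hB4 L _ hI) ((hB1 L).2 _ hI).2.1
      (fun x : L => z x) (fun x : L => w x) (fun l x => hz l l.2 x)
    have e1 : ∑ᶠ x, z x * ψ x = ∑ᶠ x : L, z x * ψ x :=
      C4_sum L (fun x => z x * ψ x) fun x hx => by simp [hs x hx]
    have e2 : ∑ᶠ x, w x * ψ x = ∑ᶠ x : L, w x * ψ x :=
      C4_sum L (fun x => w x * ψ x) fun x hx => by simp [hs x hx]
    have e3 : ∑ᶠ x, cv z w x * ψ x = ∑ᶠ x : L, cv z w x * ψ x :=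
      C4_sum L (fun x => cv z w x * ψ x) fun x hx => by simp [hs x hx]
    have e4 : ∀ g : L, cv z w g = cv (fun x : L => z x) (fun x : L => w x) g := by
      intro g
      unfold cv
      exact C4_sum L (fun x => z x * w (x⁻¹ * g)) fun x hx => by simp [hzs x hx]
    rw [e1, e2, e3]
    simp only [e4]
    exact key
  · intro z w hz hw
    classical
    haveI := Fintype.ofFinite Γ
    refine ⟨⟨?_, ?_⟩, ?_⟩
    · intro g y
      simp only [cv, finsum_eq_sum_of_fintype]
      refine (Fintype.sum_equiv (MulAut.conj y).toEquiv _ _ fun x => ?_).symm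
      simp only [MulEquiv.toEquiv_eq_coe, EquivLike.coe_coe, MulAut.conj_apply]
      rw [hz.1, ← hw.1 (x⁻¹ * g) y]
      congr 2
      group
    · intro g
      simp only [cv, finsum_eq_sum_of_fintype]
      exact IsIntegral.sum _ fun x _ => (hz.2 _).mul (hw.2 _)
    · funext g
      simp only [cv, finsum_eq_sum_of_fintype]
      refine Fintype.sum_equiv ((Equiv.inv Γ).trans (Equiv.mulRight g)) _ _ fun x => ?_
      simp only [Equiv.trans_apply, Equiv.inv_apply, Equiv.coe_mulRight]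
      have h1 : z ((x⁻¹ * g)⁻¹ * g) = z x := by
        have : (x⁻¹ * g)⁻¹ * g = g⁻¹ * x * g⁻¹⁻¹ := by group
        rw [this, hz.1]
      rw [h1, mul_comm]
  · intro χ hχ z w hz
    exact C4_cc _ _ _ _ (C4_core χ (hB4 Γ χ hχ) ((hB1 Γ).2 _ hχ).2.1 z w fun l x => hz.1 x l)

end Pool.Agent.DI
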